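import Mathlib
import Pool.Agent.R341.Spectrum

/-!
# Digit-polynomial spectra in complex bases near the positive real axis are not relatively dense

`X m γ` is the set `X^m(γ)` of all values `∑ a_j γ ^ j` with digits `a_j` in `{0, 1, ..., m}`.
The question was whether `m > |γ|² - 1` forces `X^m(γ)` to be relatively dense in `ℂ` for every
non-real `γ` with `|γ| > 1`.  The answer is negative, already for cubic complex Pisot units.  In fact
no lower bound for `m` in terms of `|γ|` is sufficient: for all `ρ > 1` and all `m`, the set `X^m(γ)`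
is not relatively dense for all `γ` of modulus `ρ` whose argument is small enough.
The reason is that for a small argument there is no cancellation between the leading digits, so that
`X^m(γ)` is contained in a thin neighbourhood of a logarithmic spiral, and misses discs of radius
proportional to `|γ| ^ N` around `-γ ^ N`.
-/

set_option autoImplicit false

open Complex Polynomial

namespace Pool.Agent.Results.MP_85e029_nt.SpiralBand

/-- The spectrum `X^m(γ)`: all `∑_{j ≤ n} a_j γ ^ j` with `n ≥ 0` and digits `a_j ∈ {0, ..., m}`. -/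
def X (m : ℕ) (γ : ℂ) : Set ℂ :=
  {z | ∃ (n : ℕ) (a : ℕ → ℕ), (∀ j, a j ≤ m) ∧
    z = ∑ j ∈ Finset.range (n + 1), (a j : ℂ) * γ ^ j}

/-- A set is relatively dense in `ℂ` if for some `R > 0` every closed disc of radius `R` meets
it. -/
def RelativelyDense (S : Set ℂ) : Prop :=
  ∃ R : ℝ, 0 < R ∧ ∀ w : ℂ, (S ∩ Metric.closedBall w R).Nonempty

/-- A complex Pisot unit: a non-real algebraic unit `γ` with `|γ| > 1` all of whose Galois conjugates
other than `γ` and its complex conjugate have modulus less than one. -/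
structure IsComplexPisotUnit (γ : ℂ) : Prop where
  integral : IsIntegral ℤ γ
  unit : IsIntegral ℤ γ⁻¹
  nonreal : γ.im ≠ 0
  one_lt : 1 < ‖γ‖
  conj : ∀ z : ℂ, aeval z (minpoly ℤ γ) = 0 → z ≠ γ → z ≠ (starRingEnd ℂ) γ → ‖z‖ < 1

lemma transfer {S : Set ℂ} (h : ¬ Pool.Agent.R341.Spectrum.RelativelyDense S) :
    ¬ RelativelyDense S := by
  rintro ⟨R, hR, hd⟩
  refine h ⟨R, hR, fun w => ?_⟩
  obtain ⟨z, hz1, hz2⟩ := hd w
  exact ⟨z, hz1, by rwa [Metric.mem_closedBall, dist_eq_norm] at hz2⟩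

lemma small_arg {ρ : ℝ} (hρ : 1 < ρ) (m : ℕ) : ∃ θ₀ : ℝ, 0 < θ₀ ∧ ∀ θ : ℝ, |θ| < θ₀ →
    ¬ RelativelyDense (X m ((ρ : ℂ) * exp (θ * I))) := by
  have hρ0 : 0 < ρ := by linarith
  have hρ1 : 0 < ρ - 1 := by linarith
  obtain ⟨K, hK⟩ := pow_unbounded_of_one_lt (m / (ρ - 1) + 1 + 1 / ρ) hρ
  obtain ⟨J₀, hJ₀⟩ := pow_unbounded_of_one_lt (2 * m * ρ ^ K / (ρ - 1)) hρ
  set J := max J₀ K with hJdef
  have hKJ : K ≤ J := le_max_right _ _
  have hJ : 2 * m * ρ ^ K / (ρ - 1) < ρ ^ J :=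
    lt_of_lt_of_le hJ₀ (pow_le_pow_right₀ hρ.le (le_max_left _ _))
  have hm0 : (0 : ℝ) ≤ m := Nat.cast_nonneg _
  have hq0 : 0 ≤ m / (ρ - 1) := by positivity
  have hi0 : 0 < 1 / ρ := by positivity
  refine ⟨Real.pi / (3 * (J + 1)), by positivity, fun θ hθ => ?_⟩
  rw [lt_div_iff₀ (by positivity)] at hθ
  have hab := abs_nonneg θ
  have hJθ : J * |θ| ≤ Real.pi / 3 := by nlinarith
  have hKθ : K * |θ| ≤ Real.pi / 3 := by
    have : (K : ℝ) ≤ J := by exact_mod_cast hKJ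
    nlinarith
  have hcos : 1 / 2 ≤ Real.cos (K * θ) := by
    rw [← Real.cos_pi_div_three, ← Real.cos_abs (K * θ)]
    apply Real.cos_le_cos_of_nonneg_of_le_pi (abs_nonneg _)
    · linarith [Real.pi_pos]
    · rw [abs_mul, Nat.abs_cast]; exact hKθ
  have hpK : 0 < ρ ^ K := by positivity
  refine transfer (Pool.Agent.R341.Spectrum.core hρ hKJ (by linarith [Real.pi_pos]) ?_ ?_ ?_)
  · have h1 : m / (ρ - 1) < ρ ^ K := by linarith
    rw [div_lt_iff₀ hρ1] at h1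
    exact h1
  · rw [div_lt_iff₀ hρ1] at hJ
    have h1 : ρ ^ (-(K : ℤ)) * (1 / 2) ≤ ρ ^ (-(K : ℤ)) * Real.cos (K * θ) := by gcongr
    have h2 : ρ ^ (-(K : ℤ)) * ρ ^ K = 1 := by
      rw [zpow_neg, zpow_natCast]
      exact inv_mul_cancel₀ hpK.ne'
    have h3 : 0 < ρ ^ (-(K : ℤ)) := zpow_pos hρ0 _
    calc (m : ℝ) = (2 * m * ρ ^ K) * (ρ ^ (-(K : ℤ)) * (1 / 2)) := by
          have : (2 * m * ρ ^ K) * (ρ ^ (-(K : ℤ)) * (1 / 2)) = m * (ρ ^ (-(K : ℤ)) * ρ ^ K) := by ring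
          rw [this, h2, mul_one]
      _ ≤ ρ ^ J * (ρ - 1) * (ρ ^ (-(K : ℤ)) * (1 / 2)) := by gcongr
      _ ≤ _ := by gcongr
  · have h1 : 1 + 1 / ρ < ρ ^ K := by linarith
    have h2 : ρ * (1 + 1 / ρ) < ρ * ρ ^ K := by gcongr
    have h3 : ρ * (1 + 1 / ρ) = ρ + 1 := by field_simp
    rw [pow_succ']
    linarith

/-- the polynomial of the example -/
lemma irr : Irreducible (Polynomial.X ^ 3 - 5 * Polynomial.X ^ 2 + 7 * Polynomial.X - 1 : ℤ[X]) := by
  have hd : (Polynomial.X ^ 3 - 5 * Polynomial.X ^ 2 + 7 * Polynomial.X - 1 : ℤ[X]).natDegree = 3 := by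
    have : (Polynomial.X ^ 3 - 5 * Polynomial.X ^ 2 + 7 * Polynomial.X - 1 : ℤ[X]) =
      Polynomial.X ^ 3 - C 5 * Polynomial.X ^ 2 + C 7 * Polynomial.X - C 1 := by simp
    rw [this]
    compute_degree!
  have hm : (Polynomial.X ^ 3 - 5 * Polynomial.X ^ 2 + 7 * Polynomial.X - 1 : ℤ[X]).Monic := by
    have : (Polynomial.X ^ 3 - 5 * Polynomial.X ^ 2 + 7 * Polynomial.X - 1 : ℤ[X]) =
      Polynomial.X ^ 3 - C 5 * Polynomial.X ^ 2 + C 7 * Polynomial.X - C 1 := by simp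
    rw [this]
    monicity!
  rw [hm.irreducible_iff_roots_eq_zero_of_degree_le_three (by omega) (by omega)]
  rw [Multiset.eq_zero_iff_forall_notMem]
  intro x hx
  rw [mem_roots hm.ne_zero, IsRoot.def] at hx
  simp at hx
  have h1 : x * (x ^ 2 - 5 * x + 7) = 1 := by linarith
  have h2 : x ∣ 1 := ⟨_, h1.symm⟩
  rcases Int.isUnit_iff.1 (isUnit_of_dvd_one h2) with rfl | rfl <;> norm_num at hx

lemma aevalP (z : ℂ) :
    aeval z (Polynomial.X ^ 3 - 5 * Polynomial.X ^ 2 + 7 * Polynomial.X - 1 : ℤ[X]) =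
      z ^ 3 - 5 * z ^ 2 + 7 * z - 1 := by
  have h5 : aeval z (5 : ℤ[X]) = 5 := map_ofNat _ 5
  have h7 : aeval z (7 : ℤ[X]) = 7 := map_ofNat _ 7
  simp [h5, h7]

lemma aevalQ (z : ℂ) :
    aeval z (Polynomial.X ^ 3 - 7 * Polynomial.X ^ 2 + 5 * Polynomial.X - 1 : ℤ[X]) =
      z ^ 3 - 7 * z ^ 2 + 5 * z - 1 := by
  have h5 : aeval z (5 : ℤ[X]) = 5 := map_ofNat _ 5
  have h7 : aeval z (7 : ℤ[X]) = 7 := map_ofNat _ 7
  simp [h5, h7]

/-- the example: a cubic complex Pisot unit -/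
lemma example_unit : ∃ γ : ℂ,
    minpoly ℤ γ = Polynomial.X ^ 3 - 5 * Polynomial.X ^ 2 + 7 * Polynomial.X - 1 ∧
    IsComplexPisotUnit γ ∧ ‖γ‖ ^ 2 - 1 < (6 : ℕ) ∧ ¬ RelativelyDense (X 6 γ) := by
  -- the real root
  obtain ⟨t, ht, ht0⟩ : ∃ t ∈ Set.Icc (0.16 : ℝ) 0.161, t ^ 3 - 5 * t ^ 2 + 7 * t - 1 = 0 := by
    have hc : ContinuousOn (fun t : ℝ => t ^ 3 - 5 * t ^ 2 + 7 * t - 1) (Set.Icc 0.16 0.161) := by
      fun_prop
    have := intermediate_value_Icc (by norm_num : (0.16 : ℝ) ≤ 0.161) hc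
    obtain ⟨t, ht, h⟩ := this (show (0 : ℝ) ∈ _ by constructor <;> norm_num)
    exact ⟨t, ht, h⟩
  obtain ⟨ht1, ht2⟩ := ht
  set u : ℝ := (5 - t) / 2 with hu
  set v : ℝ := Real.sqrt ((3 - 10 * t + 3 * t ^ 2) / 4) with hv
  have hv2 : v ^ 2 = (3 - 10 * t + 3 * t ^ 2) / 4 := Real.sq_sqrt (by nlinarith)
  have hv0 : 0 < v := Real.sqrt_pos.2 (by nlinarith)
  set γ : ℂ := ⟨u, v⟩ with hγ
  have hquad : γ ^ 2 = (5 - t) * γ - (7 - 5 * t + t ^ 2) := by
    apply Complex.ext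
    · simp [hγ, pow_two, hu]
      nlinarith
    · simp [hγ, pow_two, hu]
      ring
  have ht0c : (t : ℂ) ^ 3 - 5 * t ^ 2 + 7 * t - 1 = 0 := by exact_mod_cast ht0
  have hcub : γ ^ 3 - 5 * γ ^ 2 + 7 * γ - 1 = 0 := by
    linear_combination (γ - t) * hquad + ht0c
  have hns : ‖γ‖ ^ 2 = 7 - 5 * t + t ^ 2 := by
    rw [Complex.sq_norm, Complex.normSq_apply]
    simp only [hγ, hu]
    nlinarith
  have hn0 : 0 ≤ ‖γ‖ := norm_nonneg _
  have hn1 : 2.494 < ‖γ‖ := by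
    by_contra h
    push Not at h
    nlinarith
  have hn2 : ‖γ‖ < 2.4954 := by
    by_contra h
    push Not at h
    nlinarith
  have hmonic : (Polynomial.X ^ 3 - 5 * Polynomial.X ^ 2 + 7 * Polynomial.X - 1 : ℤ[X]).Monic := by
    have : (Polynomial.X ^ 3 - 5 * Polynomial.X ^ 2 + 7 * Polynomial.X - 1 : ℤ[X]) =
      Polynomial.X ^ 3 - C 5 * Polynomial.X ^ 2 + C 7 * Polynomial.X - C 1 := by simp
    rw [this]
    monicity!
  have hint : IsIntegral ℤ γ := by
    refine ⟨_, hmonic, ?_⟩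
    rw [← aeval_def, aevalP]
    exact hcub
  have hmin : minpoly ℤ γ = Polynomial.X ^ 3 - 5 * Polynomial.X ^ 2 + 7 * Polynomial.X - 1 := by
    have hdvd : minpoly ℤ γ ∣ Polynomial.X ^ 3 - 5 * Polynomial.X ^ 2 + 7 * Polynomial.X - 1 :=
      minpoly.isIntegrallyClosed_dvd hint (by rw [aevalP]; exact hcub)
    have hnu : ¬ IsUnit (minpoly ℤ γ) := (minpoly.prime_of_isIntegrallyClosed hint).not_isUnit
    have := irr.dvd_iff.1 hdvd |>.resolve_left hnu
    exact (eq_of_monic_of_associated hmonic (minpoly.monic hint) this).symm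
  refine ⟨γ, hmin, ⟨hint, ?_, hv0.ne', by linarith, ?_⟩, by push_cast; nlinarith, ?_⟩
  · -- unit
    have hγ0 : γ ≠ 0 := by
      rw [← norm_pos_iff]; linarith
    refine ⟨Polynomial.X ^ 3 - 7 * Polynomial.X ^ 2 + 5 * Polynomial.X - 1, ?_, ?_⟩
    · have : (Polynomial.X ^ 3 - 7 * Polynomial.X ^ 2 + 5 * Polynomial.X - 1 : ℤ[X]) =
        Polynomial.X ^ 3 - C 7 * Polynomial.X ^ 2 + C 5 * Polynomial.X - C 1 := by simp
      rw [this]
      monicity!
    · rw [← aeval_def, aevalQ]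
      field_simp
      linear_combination -hcub
  · -- conjugates
    intro z hz h1 h2
    rw [hmin, aevalP] at hz
    have hfac : (z - t) * ((z - γ) * (z - (starRingEnd ℂ) γ)) = 0 := by
      have hsum : γ + (starRingEnd ℂ) γ = 5 - t := by
        apply Complex.ext
        · simp [hγ, hu]
        · simp [hγ]
      have hprod : γ * (starRingEnd ℂ) γ = 7 - 5 * t + t ^ 2 := by
        rw [Complex.mul_conj, Complex.normSq_eq_norm_sq, hns]
        push_cast
        ring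
      have : (z - γ) * (z - (starRingEnd ℂ) γ) = z ^ 2 - (5 - t) * z + (7 - 5 * t + t ^ 2) := by
        rw [← hsum, ← hprod]; ring
      rw [this]
      linear_combination hz - ht0c
    rcases mul_eq_zero.1 hfac with h | h
    · have : z = t := by linear_combination h
      rw [this, Complex.norm_real, Real.norm_of_nonneg (by linarith)]
      linarith
    · rcases mul_eq_zero.1 h with h | h
      · exact absurd (sub_eq_zero.1 h) h1
      · exact absurd (sub_eq_zero.1 h) h2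
  · -- not relatively dense
    have hρ : 1 < ‖γ‖ := by linarith
    have hrepr : ((‖γ‖ : ℝ) : ℂ) * exp (Complex.arg γ * I) = γ := Complex.norm_mul_exp_arg_mul_I γ
    have harg0 : 0 ≤ Complex.arg γ := Complex.arg_nonneg_iff.2 hv0.le
    have harg2 : Complex.arg γ ≤ Real.pi / 2 := by
      rw [Complex.arg_le_pi_div_two_iff]
      left
      simp [hγ, hu]
      linarith
    have hsin : Real.sin (Complex.arg γ) ≤ 1 / 4 := by
      rw [Complex.sin_arg, div_le_iff₀ (by linarith)]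
      have : v ≤ 0.61 := by
        by_contra h
        push Not at h
        nlinarith
      simp only [hγ]
      linarith
    have harg : Complex.arg γ ≤ Real.pi / 8 := by
      have := Real.mul_le_sin harg0 harg2
      have hpi := Real.pi_pos
      rw [div_mul_eq_mul_div, div_le_iff₀ hpi] at this
      nlinarith
    have hcos : 0.7 ≤ Real.cos ((2 : ℕ) * Complex.arg γ) := by
      have h1 : Real.cos (Real.pi / 4) ≤ Real.cos ((2 : ℕ) * Complex.arg γ) := by
        apply Real.cos_le_cos_of_nonneg_of_le_pi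
        · positivity
        · linarith [Real.pi_pos]
        · push_cast
          linarith
      rw [Real.cos_pi_div_four] at h1
      have h2 : 1.4 ≤ Real.sqrt 2 := Real.le_sqrt_of_sq_le (by norm_num)
      linarith
    have hcore := Pool.Agent.R341.Spectrum.core (ρ := ‖γ‖) (θ := Complex.arg γ) hρ (m := 6) (K := 2)
      (J := 4) (by norm_num) (by rw [abs_of_nonneg harg0]; push_cast; linarith) ?_ ?_ ?_
    · rw [hrepr] at hcore
      exact transfer hcore
    · push_cast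
      nlinarith
    · have hn3 : ‖γ‖ ^ 4 * (‖γ‖ - 1) * (‖γ‖ ^ (-((2 : ℕ) : ℤ)) * Real.cos ((2 : ℕ) * Complex.arg γ))
          = ‖γ‖ ^ 2 * (‖γ‖ - 1) * Real.cos ((2 : ℕ) * Complex.arg γ) := by
        have hne : ‖γ‖ ≠ 0 := by linarith
        have : ‖γ‖ ^ (-((2 : ℕ) : ℤ)) = (‖γ‖ ^ 2)⁻¹ := by
          rw [zpow_neg, zpow_natCast]
        rw [this]
        field_simp
      rw [hn3]
      have h5 : 6.22 ≤ ‖γ‖ ^ 2 := by nlinarith
      have h6 : (9 : ℝ) ≤ ‖γ‖ ^ 2 * (‖γ‖ - 1) := by nlinarith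
      calc ((6 : ℕ) : ℝ) ≤ 9 * 0.7 := by norm_num
        _ ≤ _ := by gcongr
    · have h5 : 6.22 ≤ ‖γ‖ ^ 2 := by nlinarith
      have h6 : ‖γ‖ ^ (2 + 1) = ‖γ‖ ^ 2 * ‖γ‖ := by ring
      rw [h6]
      nlinarith

/-- **Negative answer.**  (1) It is not true that `X^m(γ)` is relatively dense for all non-real `γ`
with `|γ| > 1` and all `m > |γ|² - 1`.  (2) It is not even true for cubic complex Pisot units: for
`γ` with minimal polynomial `Y³ - 5 Y² + 7 Y - 1` one has `6 > |γ|² - 1` but `X^6(γ)` is not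
relatively dense.  (3) For all `ρ > 1` and `m` there is `θ₀ > 0` such that `X^m(γ)` is not relatively
dense for all `γ` of modulus `ρ` with argument `θ`, `|θ| < θ₀`. -/
theorem result :
    (¬ ∀ γ : ℂ, γ.im ≠ 0 → 1 < ‖γ‖ → ∀ m : ℕ, ‖γ‖ ^ 2 - 1 < m → RelativelyDense (X m γ)) ∧
    (∃ γ : ℂ, minpoly ℤ γ = Polynomial.X ^ 3 - 5 * Polynomial.X ^ 2 + 7 * Polynomial.X - 1 ∧
      IsComplexPisotUnit γ ∧ ‖γ‖ ^ 2 - 1 < (6 : ℕ) ∧ ¬ RelativelyDense (X 6 γ)) ∧
    (∀ ρ : ℝ, 1 < ρ → ∀ m : ℕ, ∃ θ₀ : ℝ, 0 < θ₀ ∧ ∀ θ : ℝ, |θ| < θ₀ →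
      ¬ RelativelyDense (X m ((ρ : ℂ) * exp (θ * I)))) := by
  refine ⟨?_, example_unit, fun ρ hρ m => small_arg hρ m⟩
  obtain ⟨γ, -, h1, h2, h3⟩ := example_unit
  exact fun h => h3 (h γ h1.nonreal h1.one_lt 6 h2)

end Pool.Agent.Results.MP_85e029_nt.SpiralBand
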